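import Pool.Agent.ZGO.StmtsB

/-!
# ZGO, row CTR: contradiction
-/

set_option autoImplicit false

namespace Pool.Agent.ZGO.H24

/-- CTR. -/
theorem ctr (wfi : WfiStmt) (exn : ExnStmt) (clo : CloStmt) (nlt : NltStmt) (jac : JacStmt) :
    CtrStmt := by
  intro P _ p φ X _ τ ρ F M hC htor
  obtain ⟨hfin, hnt⟩ := wfi P p φ X τ ρ F M hC
  have h1 : ∀ t ∈ {T : AddMonoid.End (Wq τ F M) | ∃ g s, Sym τ ρ F M g s T},
      ∀ u ∈ {T : AddMonoid.End (Wq τ F M) | ∃ g s, Sym τ ρ F M g s T},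
      t * u - u * t ∈ {T : AddMonoid.End (Wq τ F M) | ∃ g s, Sym τ ρ F M g s T} := by
    rintro t ⟨g, s, hg⟩ u ⟨h, r, hh⟩
    exact ⟨_, _, clo P p φ X τ ρ F M hC g h s r t u hg hh⟩
  have h2 : ∀ t ∈ {T : AddMonoid.End (Wq τ F M) | ∃ g s, Sym τ ρ F M g s T}, IsNilpotent t := by
    rintro t ⟨g, s, hg⟩
    exact nlt P p φ X τ ρ F M hC g s t (htor g) hg
  obtain ⟨w, hw, hS⟩ := jac (Wq τ F M) {T | ∃ g s, Sym τ ρ F M g s T} h1 h2
  obtain ⟨z, rfl⟩ := QuotientAddGroup.mk_surjective w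
  -- some entry is not in `F i`
  have hne : ∃ i, (z : ℕ → X) i ∉ F i := by
    by_contra hcon
    push Not at hcon
    apply hw
    rw [QuotientAddGroup.eq_zero_iff]
    exact hcon
  -- one with `i = j + 1`
  have hsucc : ∃ j, (z : ℕ → X) (j + 1) ∉ F (j + 1) := by
    obtain ⟨i, hi⟩ := hne
    rcases i with _ | j
    · obtain ⟨m, rfl⟩ : ∃ m, M = m + 1 := ⟨M - 1, by have := hC.pos; omega⟩
      refine ⟨m, fun hm => hi ?_⟩
      have h3 : τ ((z : ℕ → X) (0 + (m + 1))) ∈ F 0 := by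
        apply (hC.sht 0 _).1
        rw [Nat.zero_add]
        exact hm
      have h4 := (z.2 0).2
      have h5 := (F 0).sub_mem h3 h4
      rw [sub_sub_cancel] at h5
      exact h5
    · exact ⟨j, hi⟩
  obtain ⟨j, hj⟩ := hsucc
  obtain ⟨g, hg⟩ := hC.det j _ hj
  obtain ⟨T, hT⟩ := exn P p φ X τ ρ F M hC g
  have h0 := hS T ⟨g, 1, hT⟩
  obtain ⟨z', hz1, hz2⟩ := hT.2.2 z
  have h3 : (QuotientAddGroup.mk z' : Wq τ F M) = 0 := by
    rw [← hz1]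
    exact h0
  rw [QuotientAddGroup.eq_zero_iff] at h3
  have h4 : (z' : ℕ → X) j ∈ F j := h3 j
  apply hg
  have h5 := (F j).add_mem (hz2 j) h4
  rw [sub_add_cancel] at h5
  exact h5

end Pool.Agent.ZGO.H24
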